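import Mathlib
import Pool.Agent.H652G.Prod

/-!
# MP_4d8715_gt: Krawczyk's question on γ-sets and Hausdorff dimension

There is a notion of forcing `P` such that every condition forces that there is an uncountable
set of reals satisfying `S₁(Ω, Γ)`, and that for all sets of reals `X` satisfying `S₁(Ω, Γ)` and
all sets of reals `Y` of Hausdorff dimension zero the product `X × Y` has Hausdorff dimension
zero.

`P` is a finite support iteration of cofinality `ω₃` of Hechler tree forcing and of ccc posets
of size `ℵ₁` which make given families of `ℵ₁` reals strong γ-sets, presented through names for
promises. In the extension the sets satisfying `S₁(Ω, Γ)` are exactly the sets of size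
at most `ℵ₁`. See `Pool.Agent.H652G.Defs` for the statements, `Pool.Agent.H652R2.Defs` for the
names of real numbers and `Pool.Agent.Helper669.Forcing` for the forcing language.
-/

namespace Pool.Agent.Results.MP_4d8715_gt.GammaSetProducts

open Pool.Agent.Helper669.Forcing Pool.Agent.H652G Pool.Agent.H652G.Defs

/-- There is a notion of forcing `P` such that every condition forces: (i) there is an
uncountable set of reals satisfying `S₁(Ω, Γ)`, and (ii) the product of every set of reals
satisfying `S₁(Ω, Γ)` with every set of reals of Hausdorff dimension zero has Hausdorff dimension
zero. -/
theorem result : ∃ (P : Type) (_ : Preorder P), Nonempty P ∧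
    ∀ p : P, p ∈ fand (StatementI P) (StatementII P) :=
  ⟨PP, inferInstance, inferInstance, fun p => ⟨statementI p, statementII p⟩⟩

end Pool.Agent.Results.MP_4d8715_gt.GammaSetProducts
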